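import Pool.Agent.K1H35.SH.Stm2
import Pool.Agent.K1H38.SH.OneBad

/-!
Pieces UPC and UPB of the project SQ: upper tail of the codegree in the sparse regime.
-/

set_option autoImplicit false

namespace Pool.Agent.K1H16.SQ

open Finset Pool.Agent.K1H35.SH

theorem mem_nb {n : ℕ} (G : SimpleGraph (Fin n)) (v x : Fin n) : x ∈ nb G v ↔ G.Adj v x := by
  simp [nb]

theorem mem_reg {n d : ℕ} (G : SimpleGraph (Fin n)) :
    G ∈ reg n d ↔ ∀ v, (nb G v).card = d := by
  simp [reg]

open Classical in
theorem RT_card (n d t : ℕ) (G : SimpleGraph (Fin n)) (u v : Fin n) (hn : 4 * d ≤ n) (hd : 64 ≤ d)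
    (hG : G ∈ reg n d) (hK : codeg G u v = t + 1) (ht : 8 * d ^ 2 ≤ n * t) :
    3 * d ^ 3 ≤ (RT G u v).card := by
  rw [mem_reg] at hG
  set A := nb G u with hA
  set B := nb G v with hB
  set K := A ∩ B with hKd
  have hK' : K.card = t + 1 := by
    rw [← hK, codeg]
  set L : Finset (Fin n) := univ.filter (fun l => l ∉ A ∧ l ∉ B ∧ l ≠ u ∧ l ≠ v) with hL
  -- size of L
  have hLc : n + t ≤ L.card + 2 * d + 1 := by
    have h1 : (univ : Finset (Fin n)) ⊆ L ∪ ((A ∪ B) ∪ {u, v}) := by
      intro x _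
      simp only [hL, mem_union, mem_filter, mem_univ, true_and, mem_insert, mem_singleton]
      tauto
    have h2 := card_le_card h1
    rw [card_univ, Fintype.card_fin] at h2
    have h3 := card_union_le L ((A ∪ B) ∪ {u, v})
    have h4 := card_union_le (A ∪ B) {u, v}
    have h5 : ({u, v} : Finset (Fin n)).card ≤ 2 := card_le_two
    have h6 := card_union_add_card_inter A B
    have h7 := hG u
    have h8 := hG v
    rw [← hA] at h7
    rw [← hB] at h8
    rw [← hKd] at h6
    omega
  -- functions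
  set dL : Fin n → ℕ := fun x => (L ∩ nb G x).card with hdL
  set S : Finset (Σ _ : Fin n, Fin n × Fin n) :=
    (univ : Finset (Fin n)).sigma (fun x => (L ∩ nb G x) ×ˢ (K \ insert x (nb G x))) with hS
  have hSc : S.card ≤ (RT G u v).card := by
    refine card_le_card_of_injOn (fun p => ((v, p.2.2, p.2.1, p.1) : Tup n)) ?_ ?_
    · rintro ⟨x, l, k⟩ hp
      simp only [hS, hL, hKd, hA, hB, coe_sigma, Set.mem_sigma_iff, mem_coe, mem_univ, mem_product,
        mem_inter, mem_filter, true_and, mem_sdiff, mem_insert, mem_nb, not_or] at hp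
      simp only [RT, coe_filter, mem_univ, true_and, Set.mem_setOf_eq]
      obtain ⟨⟨⟨h1, h2, h3, h4⟩, h5⟩, ⟨h6, h7⟩, h8, h9⟩ := hp
      exact ⟨h6, h7, h1, h2, h3, h4, h5.symm, fun h => h9 h.symm, h8⟩
    · rintro ⟨x, l, k⟩ _ ⟨x', l', k'⟩ _ h
      simp only [Prod.mk.injEq, true_and] at h
      obtain ⟨rfl, rfl, rfl⟩ := h
      rfl
  have hScard : S.card = ∑ x : Fin n, dL x * (K \ insert x (nb G x)).card := by
    rw [hS, card_sigma]
    refine sum_congr rfl fun x _ => ?_
    rw [card_product]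
  have hx : ∀ x : Fin n, (dL x : ℤ) + t - d ≤ ((K \ insert x (nb G x)).card : ℤ) := by
    intro x
    have h1 : K.card ≤ (K \ insert x (nb G x)).card + ((K ∩ nb G x).card + 1) := by
      have : K ⊆ (K \ insert x (nb G x)) ∪ ((K ∩ nb G x) ∪ {x}) := by
        intro y hy
        simp only [mem_union, mem_sdiff, mem_insert, mem_inter, mem_singleton]
        tauto
      refine (card_le_card this).trans ((card_union_le _ _).trans ?_)
      have := card_union_le (K ∩ nb G x) {x}
      rw [card_singleton] at this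
      omega
    have h2 : (L ∩ nb G x).card + (K ∩ nb G x).card ≤ d := by
      rw [← card_union_of_disjoint]
      · rw [← hG x]
        refine card_le_card ?_
        intro y hy
        simp only [mem_union, mem_inter] at hy
        tauto
      · rw [disjoint_left]
        intro y hy hy'
        simp only [hL, hKd, mem_inter, mem_filter, mem_univ, true_and] at hy hy'
        exact hy.1.1 hy'.1.1
    simp only [hdL]
    omega
  have hsum : ∑ x : Fin n, dL x = d * L.card := by
    have h1 : ∀ x, dL x = ∑ l ∈ L, if G.Adj l x then 1 else 0 := by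
      intro x
      simp only [hdL]
      rw [card_eq_sum_ones, sum_ite, sum_const_zero, add_zero]
      refine sum_congr ?_ fun _ _ => rfl
      ext l
      simp only [mem_inter, mem_nb, mem_filter]
      rw [G.adj_comm]
    simp_rw [h1]
    rw [sum_comm]
    have h2 : ∀ l ∈ L, ∑ x : Fin n, (if G.Adj l x then 1 else 0) = d := by
      intro l _
      rw [← hG l, card_eq_sum_ones, sum_ite, sum_const_zero, add_zero]
      refine sum_congr ?_ fun _ _ => rfl
      ext x
      simp only [mem_nb, mem_filter, mem_univ, true_and]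
    rw [sum_congr rfl h2, sum_const, smul_eq_mul, mul_comm]
  have hcs : (∑ x : Fin n, (dL x : ℤ)) ^ 2 ≤ (n : ℤ) * ∑ x : Fin n, (dL x : ℤ) ^ 2 := by
    have := sq_sum_le_card_mul_sum_sq (s := (univ : Finset (Fin n))) (f := fun x => (dL x : ℤ))
    simpa using this
  have hsumZ : ∑ x : Fin n, (dL x : ℤ) = (d : ℤ) * L.card := by exact_mod_cast hsum
  have hR : ∑ x : Fin n, (dL x : ℤ) ^ 2 - ((d : ℤ) - t) * ((d : ℤ) * L.card) ≤
      ((RT G u v).card : ℤ) := by
    have h1 : ((S.card : ℕ) : ℤ) ≤ ((RT G u v).card : ℤ) := by exact_mod_cast hSc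
    refine le_trans ?_ h1
    rw [hScard, ← hsumZ, mul_sum, ← sum_sub_distrib]
    push_cast
    refine sum_le_sum fun x _ => ?_
    have h2 := hx x
    have h3 : (0 : ℤ) ≤ dL x := by positivity
    nlinarith [mul_le_mul_of_nonneg_left h2 h3]
  rw [hsumZ] at hcs
  generalize hℓ : L.card = ℓ at *
  generalize hRR : (RT G u v).card = R at *
  generalize hQ : ∑ x : Fin n, (dL x : ℤ) ^ 2 = Q at *
  have e1 : (n : ℤ) * R ≥ (d : ℤ) * ℓ * ((d : ℤ) * ℓ - ((d : ℤ) - t) * n) := by
    have : (0 : ℤ) ≤ n := by positivity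
    nlinarith [mul_le_mul_of_nonneg_left hR this]
  have hnZ : (4 : ℤ) * d ≤ n := by exact_mod_cast hn
  have hdZ : (64 : ℤ) ≤ d := by exact_mod_cast hd
  have htZ : (8 : ℤ) * d ^ 2 ≤ n * t := by exact_mod_cast ht
  have hlZ : (n : ℤ) + t ≤ ℓ + 2 * d + 1 := by exact_mod_cast hLc
  have ht1 : (1 : ℤ) ≤ t := by
    by_contra h
    have h0 : (t : ℤ) = 0 := by
      have : (0 : ℤ) ≤ t := by positivity
      omega
    rw [h0, mul_zero] at htZ
    nlinarith
  have e2 : (4 : ℤ) * ((d : ℤ) * ℓ - ((d : ℤ) - t) * n) ≥ 3 * ((t : ℤ) * n) := by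
    have a1 : (d : ℤ) * (n + t - 2 * d - 1) ≤ d * ℓ :=
      mul_le_mul_of_nonneg_left (by linarith) (by linarith)
    have a2 : (d : ℤ) * 1 ≤ d * t := mul_le_mul_of_nonneg_left ht1 (by linarith)
    nlinarith
  have e3 : (4 : ℤ) * ((n : ℤ) * R) ≥ (d : ℤ) * ℓ * (3 * ((t : ℤ) * n)) := by
    have h0 : (0 : ℤ) ≤ (d : ℤ) * ℓ := by positivity
    linarith [mul_le_mul_of_nonneg_left e2 h0]
  have hn0 : (0 : ℤ) < n := by linarith
  have e4 : (4 : ℤ) * R ≥ 3 * ((d : ℤ) * t * ℓ) := by
    have : (n : ℤ) * (3 * ((d : ℤ) * t * ℓ)) ≤ n * (4 * R) := by linarith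
    exact le_of_mul_le_mul_left this hn0
  have e5 : (n : ℤ) ≤ 2 * ℓ := by linarith
  have e6 : (8 : ℤ) * R ≥ 3 * ((d : ℤ) * (n * t)) := by
    have h0 : (0 : ℤ) ≤ (d : ℤ) * t := by positivity
    linarith [mul_le_mul_of_nonneg_left e5 h0]
  have e7 : (d : ℤ) * (8 * (d : ℤ) ^ 2) ≤ d * (n * t) :=
    mul_le_mul_of_nonneg_left htZ (by linarith)
  have e8 : (3 : ℤ) * d ^ 3 ≤ R := by linarith
  exact_mod_cast e8

theorem t_UPC (hSW : S_SW) (hDC : S_DC) : S_UPC := by
  intro n d t u v hn hd huv ht
  have key := hDC n d (fun G => codeg G u v = t + 1) (fun G => codeg G u v = t)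
    (fun G => RT G u v) (fun G => OB.BB u v G) (3 * d ^ 3) ((d - t) * ((d - t) * d))
    (fun G hG hP τ hτ => OB.step hSW hG huv hP τ hτ)
    (fun G hG hP => RT_card n d t G u v hn hd hG hP ht)
    (fun G hG hQ => OB.card_BB hG u v hQ)
  set P := cnt n d (fun G => codeg G u v = t + 1) with hPd
  set Q := cnt n d (fun G => codeg G u v = t) with hQd
  have h3 : (d - t) * ((d - t) * d) ≤ d ^ 3 := by
    calc (d - t) * ((d - t) * d) ≤ d * (d * d) := by
          gcongr <;> omega
      _ = d ^ 3 := by ring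
  have h4 : d ^ 3 * (3 * P) ≤ d ^ 3 * Q := by
    calc d ^ 3 * (3 * P) = 3 * d ^ 3 * P := by ring
      _ ≤ (d - t) * ((d - t) * d) * Q := key
      _ ≤ d ^ 3 * Q := by gcongr
  have h5 : 3 * P ≤ Q := Nat.le_of_mul_le_mul_left h4 (by positivity)
  omega

theorem t_UPB (h : S_UPC) : S_UPB := by
  classical
  intro n d t j hn hd ht
  have hind : ∀ u v : Fin n, u ≠ v → ∀ i : ℕ,
      cnt n d (fun G => codeg G u v = t + i) * 2 ^ i ≤ (reg n d).card := by
    intro u v huv i
    induction i with
    | zero => simpa using OB.cnt_le_reg _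
    | succ i ih =>
      have h1 := h n d (t + i) u v hn hd huv (ht.trans (Nat.mul_le_mul_left _ (by omega)))
      calc cnt n d (fun G => codeg G u v = t + (i + 1)) * 2 ^ (i + 1)
          = (2 * cnt n d (fun G => codeg G u v = t + i + 1)) * 2 ^ i := by
            rw [pow_succ, Nat.add_assoc]; ring
        _ ≤ cnt n d (fun G => codeg G u v = t + i) * 2 ^ i := by gcongr
        _ ≤ _ := ih
  have hone : ∀ u v : Fin n, u ≠ v → ∀ s : ℕ, t + j ≤ s →
      cnt n d (fun G => codeg G u v = s) * 2 ^ j ≤ (reg n d).card := by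
    intro u v huv s hs
    have h1 : s = t + (s - t) := by omega
    have h2 := hind u v huv (s - t)
    rw [← h1] at h2
    refine le_trans (Nat.mul_le_mul_left _ (Nat.pow_le_pow_right (by norm_num) ?_)) h2
    omega
  have hsub : (reg n d).filter (fun G => ∃ u v, u ≠ v ∧ t + j ≤ codeg G u v) ⊆
      (univ : Finset (Fin n)).biUnion (fun u => (univ : Finset (Fin n)).biUnion (fun v =>
        ((range (d + 1)).filter (fun s => u ≠ v ∧ t + j ≤ s)).biUnion (fun s =>
          (reg n d).filter (fun G => codeg G u v = s)))) := by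
    intro G hG
    rw [Finset.mem_filter] at hG
    obtain ⟨hG1, u, v, huv, hc⟩ := hG
    simp only [Finset.mem_biUnion, Finset.mem_univ, true_and, Finset.mem_filter, Finset.mem_range]
    refine ⟨u, v, codeg G u v, ⟨?_, huv, hc⟩, hG1, rfl⟩
    have : codeg G u v ≤ (nb G u).card := by
      unfold codeg
      exact Finset.card_le_card Finset.inter_subset_left
    rw [(mem_reg G).1 hG1 u] at this
    omega
  have hcnt : cnt n d (fun G => ∃ u v, u ≠ v ∧ t + j ≤ codeg G u v) =
      ((reg n d).filter (fun G => ∃ u v, u ≠ v ∧ t + j ≤ codeg G u v)).card := by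
    unfold cnt; congr
  have hdn : d + 1 ≤ n := by omega
  rw [hcnt]
  have hA : ∀ u v : Fin n,
      ((((range (d + 1)).filter (fun s => u ≠ v ∧ t + j ≤ s)).biUnion (fun s =>
          (reg n d).filter (fun G => codeg G u v = s))).card) * 2 ^ j ≤
        n * (reg n d).card := by
    intro u v
    calc _ ≤ (∑ s ∈ (range (d + 1)).filter (fun s => u ≠ v ∧ t + j ≤ s),
          ((reg n d).filter (fun G => codeg G u v = s)).card) * 2 ^ j :=
          Nat.mul_le_mul_right _ Finset.card_biUnion_le
      _ = ∑ s ∈ (range (d + 1)).filter (fun s => u ≠ v ∧ t + j ≤ s),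
          ((reg n d).filter (fun G => codeg G u v = s)).card * 2 ^ j := by
          rw [Finset.sum_mul]
      _ ≤ ∑ s ∈ (range (d + 1)).filter (fun s => u ≠ v ∧ t + j ≤ s), (reg n d).card := by
          refine Finset.sum_le_sum fun s hs => ?_
          rw [Finset.mem_filter] at hs
          have h1 := hone u v hs.2.1 s hs.2.2
          have h2 : cnt n d (fun G => codeg G u v = s) =
              ((reg n d).filter (fun G => codeg G u v = s)).card := by
            unfold cnt; congr
          rw [h2] at h1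
          exact h1
      _ ≤ ∑ s ∈ range (d + 1), (reg n d).card :=
          Finset.sum_le_sum_of_subset (Finset.filter_subset _ _)
      _ = (d + 1) * (reg n d).card := by simp
      _ ≤ n * (reg n d).card := by gcongr
  calc ((reg n d).filter (fun G => ∃ u v, u ≠ v ∧ t + j ≤ codeg G u v)).card * 2 ^ j
      ≤ (∑ u : Fin n, ∑ v : Fin n,
        (((range (d + 1)).filter (fun s => u ≠ v ∧ t + j ≤ s)).biUnion (fun s =>
          (reg n d).filter (fun G => codeg G u v = s))).card) * 2 ^ j := by
        refine Nat.mul_le_mul_right _ ((Finset.card_le_card hsub).trans ?_)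
        refine Finset.card_biUnion_le.trans (Finset.sum_le_sum fun u _ => ?_)
        exact Finset.card_biUnion_le
    _ = ∑ u : Fin n, ∑ v : Fin n,
        (((range (d + 1)).filter (fun s => u ≠ v ∧ t + j ≤ s)).biUnion (fun s =>
          (reg n d).filter (fun G => codeg G u v = s))).card * 2 ^ j := by
        rw [Finset.sum_mul]
        refine Finset.sum_congr rfl fun u _ => ?_
        rw [Finset.sum_mul]
    _ ≤ ∑ u : Fin n, ∑ v : Fin n, n * (reg n d).card :=
        Finset.sum_le_sum fun u _ => Finset.sum_le_sum fun v _ => hA u v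
    _ = n ^ 3 * (reg n d).card := by
        simp only [Finset.sum_const, Finset.card_univ, Fintype.card_fin, smul_eq_mul]
        ring

end Pool.Agent.K1H16.SQ
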